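import Pool.Agent.E8helper95.NP.Stm

/-!
# Project NP, piece EQ (helper56): case II with `b₁ = b₂ = m`
-/

set_option autoImplicit false

namespace Pool.Agent.E8helper56.NP

open Pool.Agent.E8helper95.NP

theorem rep_succ (p m : ℕ) : rep p (m + 1) = rep p m + (p : ℤ) ^ m := by
  unfold rep
  rw [Finset.sum_range_succ]

theorem rep_geom (p m : ℕ) : ((p : ℤ) - 1) * rep p m = (p : ℤ) ^ m - 1 := by
  unfold rep
  exact mul_geom_sum _ _

theorem rep_parity {p : ℕ} (hp : Odd p) (m : ℕ) : Even (rep p m) ↔ Even m := by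
  induction m with
  | zero => simp [rep]
  | succ n ih =>
    have h1 : Odd ((p : ℤ) ^ n) := by
      have h2 : Odd (p : ℤ) := by exact_mod_cast hp
      exact h2.pow
    have h3 : ¬ Even ((p : ℤ) ^ n) := Int.not_even_iff_odd.2 h1
    rw [rep_succ, Int.even_add, Nat.even_add_one, ih]
    constructor
    · intro h h4
      exact h3 (h.1 h4)
    · intro h
      exact ⟨fun h4 => absurd h4 h, fun h4 => absurd h4 h3⟩

theorem rep_ge (p m : ℕ) (hp : 1 ≤ p) : (p : ℤ) ^ m ≤ rep p (m + 1) := by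
  rw [rep_succ]
  have h1 : 0 ≤ rep p m := by
    unfold rep
    exact Finset.sum_nonneg fun i _ => by positivity
  linarith

theorem t_EQ (hV : S_V) : S_EQ := by
  intro k p m B A h hBA
  obtain ⟨hp, hp3, hm, hB, hA, -, -, heq⟩ := h
  have hodd : Odd p := by
    rcases hp.eq_two_or_odd' with h | h
    · omega
    · exact h
  have hgeom := rep_geom p m
  obtain ⟨i, hi⟩ : ∃ i, k + 1 = A + (i + 1) := ⟨k - A, by omega⟩
  have hMI : (2 : ℤ) ^ (k + 1) = 2 ^ A * 2 ^ (i + 1) := by rw [hi, pow_add]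
  obtain ⟨P, hP⟩ : ∃ P : ℤ, P = p := ⟨_, rfl⟩
  obtain ⟨S, hS⟩ : ∃ S : ℤ, S = rep p m := ⟨_, rfl⟩
  obtain ⟨X, hX⟩ : ∃ X : ℤ, X = 2 ^ B := ⟨_, rfl⟩
  obtain ⟨Y, hY⟩ : ∃ Y : ℤ, Y = 2 ^ A := ⟨_, rfl⟩
  obtain ⟨I, hI⟩ : ∃ I : ℤ, I = 2 ^ (i + 1) := ⟨_, rfl⟩
  obtain ⟨M, hM⟩ : ∃ M : ℤ, M = 2 ^ (k + 1) := ⟨_, rfl⟩
  have hP3 : 3 ≤ P := by rw [hP]; exact_mod_cast hp3
  have hX1 : 1 ≤ X := by rw [hX]; exact one_le_pow₀ (by norm_num)
  have hY1 : 1 ≤ Y := by rw [hY]; exact one_le_pow₀ (by norm_num)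
  have hgeomP : (P - 1) * S = P ^ m - 1 := by rw [hP, hS]; exact hgeom
  have hS_ge : P ^ (m - 1) ≤ S := by
    have h1 := rep_ge p (m - 1) (by omega)
    rw [Nat.sub_add_cancel (by omega)] at h1
    rw [hP, hS]
    exact h1
  have hSpos : P + 1 ≤ S := by
    obtain ⟨j, rfl⟩ : ∃ j, m = j + 2 := ⟨m - 2, by omega⟩
    have h1 : S = rep p (j + 1) + P ^ (j + 1) := by rw [hS, rep_succ, hP]
    have h2 : (1 : ℤ) ≤ rep p (j + 1) := by
      have h3 := rep_ge p j (by omega)
      have h4 : (1 : ℤ) ≤ (p : ℤ) ^ j := one_le_pow₀ (by exact_mod_cast (by omega : 1 ≤ p))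
      linarith
    have h3 : P ≤ P ^ (j + 1) := by
      have h4 : (1 : ℤ) ≤ P ^ j := one_le_pow₀ (by linarith)
      rw [pow_succ]
      nlinarith
    linarith
  have heq' : (M - P) * S = 1 + X * P ^ m + Y * P ^ m := by
    rw [hM, hP, hS, hX, hY]
    exact heq
  obtain ⟨c, hcdef⟩ : ∃ c : ℤ, c = M - P - (P - 1) * (X + Y) := ⟨_, rfl⟩
  have hc : c * S = 1 + X + Y := by
    rw [hcdef]
    linear_combination heq' - (X + Y) * hgeomP
  have hc1 : 1 ≤ c := by
    by_contra h0
    have h1 : c ≤ 0 := by omega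
    nlinarith
  obtain ⟨g, hg⟩ : ∃ g : ℤ, g = I - (P - 1) := ⟨_, rfl⟩
  have hMI' : M = Y * I := by rw [hM, hY, hI]; exact hMI
  have hYg : Y * g = c + P + (P - 1) * X := by
    rw [hg, hcdef, hMI']
    ring
  have hg0 : 0 < g := by
    by_contra h0
    have h1 : g ≤ 0 := by omega
    nlinarith
  have hgev : Even g := by
    have h1 : Even I := by
      rw [hI, pow_succ']
      exact even_two.mul_right _
    have h2 : Even (P - 1) := by
      have h3 : Odd P := by rw [hP]; exact_mod_cast hodd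
      exact h3.sub_odd odd_one
    rw [hg]
    exact h1.sub h2
  have hg2 : 2 ≤ g := by
    obtain ⟨y, hy⟩ := hgev
    omega
  have key : c * (g * S - 1) = 1 + (g + P - 1) * (X + 1) := by
    linear_combination g * hc + hYg
  have hgS : 1 ≤ g * S - 1 := by nlinarith
  have key1 : g * S - 1 ≤ 1 + (g + P - 1) * (X + 1) := by
    rw [← key]
    nlinarith
  rcases Nat.even_or_odd m with hev | hmo
  · -- `m` even
    have hSev : Even S := by rw [hS]; exact (rep_parity hodd m).2 hev
    have hB0 : B = 0 := by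
      by_contra hB0
      obtain ⟨s, hs⟩ := hSev
      obtain ⟨B', rfl⟩ : ∃ B', B = B' + 1 := ⟨B - 1, by omega⟩
      obtain ⟨A', rfl⟩ : ∃ A', A = A' + 1 := ⟨A - 1, by omega⟩
      obtain ⟨z, hz⟩ : ∃ z : ℤ, z = c * s := ⟨_, rfl⟩
      have h1 : c * S = 2 * z := by rw [hs, hz]; ring
      have h2 : X = 2 * 2 ^ B' := by rw [hX, pow_succ']
      have h3 : Y = 2 * 2 ^ A' := by rw [hY, pow_succ']
      rw [h1, h2, h3] at hc
      omega
    have hX' : X = 1 := by rw [hX, hB0, pow_zero]
    rw [hX'] at key key1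
    have hg3 : g < 4 := by
      by_contra h4
      have h5 : 4 ≤ g := by omega
      nlinarith
    have hge : g = 2 := by
      obtain ⟨y, hy⟩ := hgev
      omega
    rw [hge] at key
    have hc2 : c < 2 := by
      by_contra h4
      have h5 : 2 ≤ c := by omega
      nlinarith
    have hce : c = 1 := by omega
    rw [hce] at key
    have hSe : S = P + 2 := by linarith
    rcases Nat.lt_or_ge m 3 with h3 | h3
    · have hm2 : m = 2 := by omega
      rw [hm2] at hS
      have h4 : rep p 2 = 1 + p := by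
        simp [rep, Finset.sum_range_succ]
      rw [h4, ← hP] at hS
      omega
    · have h4 : P ^ 2 ≤ P ^ (m - 1) := pow_le_pow_right₀ (by linarith) (by omega)
      nlinarith
  · -- `m` odd
    have hdvd : (2 : ℤ) ^ B ∣ rep p (m + 1) := by
      have h1 : rep p (m + 1) = S * M - X * P ^ m - Y * P ^ m := by
        rw [rep_succ, ← hS, ← hP]
        linear_combination -heq' - hgeomP
      rw [h1]
      have d1 : (2 : ℤ) ^ B ∣ S * M := by
        rw [hM]
        exact Dvd.dvd.mul_left (pow_dvd_pow _ (by omega)) _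
      have d2 : (2 : ℤ) ^ B ∣ X * P ^ m := by
        rw [hX]
        exact Dvd.intro _ rfl
      have d3 : (2 : ℤ) ^ B ∣ Y * P ^ m := by
        rw [hY]
        exact Dvd.dvd.mul_right (pow_dvd_pow _ (by omega)) _
      exact dvd_sub (dvd_sub d1 d2) d3
    have hV1 := hV p m B hodd hmo hp3 hdvd
    have hle : 2 ^ (B + 1) ≤ (p + 1) * (m + 1) := Nat.le_of_dvd (by positivity) hV1
    have hleZ : 2 * X ≤ (P + 1) * ((m : ℤ) + 1) := by
      rw [hX, hP, ← pow_succ']
      exact_mod_cast hle
    have h2S : 2 * S ≤ (P + 1) * X + P + 3 := by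
      by_contra h4
      have h5 : (P + 1) * X + P + 3 < 2 * S := by omega
      -- `g (S - X - 1) ≤ 2 + (P - 1) (X + 1)`
      have h6 : g * (S - X - 1) ≤ 2 + (P - 1) * (X + 1) := by nlinarith
      have h7 : 0 ≤ S - X - 1 := by nlinarith
      nlinarith
    rcases Nat.lt_or_ge m 5 with h5 | h5
    · have hm3 : m = 3 := by
        obtain ⟨y, hy⟩ := hmo
        omega
      have hSv : S = P ^ 2 + P + 1 := by
        rw [hS, hm3, hP]
        simp [rep, Finset.sum_range_succ]
        ring
      have hm3' : (m : ℤ) = 3 := by exact_mod_cast hm3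
      -- `2 ^ B ∣ 2 (p + 1)`
      have hV2 : 2 ^ B ∣ 2 * (p + 1) := by
        rw [hm3] at hV1
        have h6 : (p + 1) * (3 + 1) = 2 * (2 * (p + 1)) := by ring
        rw [h6, pow_succ'] at hV1
        exact Nat.dvd_of_mul_dvd_mul_left (by norm_num) hV1
      have hcase : X ≤ P + 1 ∨ X = 2 * (P + 1) := by
        obtain ⟨q, hq⟩ := hV2
        rcases Nat.lt_or_ge q 2 with hq2 | hq2
        · have hq1 : q = 1 := by
            rcases Nat.eq_zero_or_pos q with h0 | h0
            · rw [h0] at hq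
              omega
            · omega
          rw [hq1, mul_one] at hq
          right
          rw [hX, hP]
          exact_mod_cast hq.symm
        · left
          have h6 : 2 ^ B * 2 ≤ 2 * (p + 1) := by
            rw [hq]
            exact Nat.mul_le_mul_left _ hq2
          have h7 : 2 ^ B ≤ p + 1 := by omega
          rw [hX, hP]
          exact_mod_cast h7
      rcases hcase with hX1' | hX2'
      · rw [hSv] at h2S
        nlinarith
      · rw [hX2', hSv] at key key1
        rcases lt_or_ge g 4 with h4 | h4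
        · have hge : g = 2 := by
            obtain ⟨y, hy⟩ := hgev
            omega
          rw [hge] at key
          rcases lt_or_ge c 2 with hc2 | hc2
          · have hce : c = 1 := by omega
            rw [hce] at key
            nlinarith
          · nlinarith
        · have hPe : P = 3 := by
            by_contra hne
            have h6 : 4 ≤ P := by omega
            nlinarith
          rw [hPe] at key1 hg
          have hge : g = 4 := by
            obtain ⟨y, hy⟩ := hgev
            omega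
          rw [hge] at hg
          have hI6 : I = 6 := by linarith
          rw [hI] at hI6
          have h8 : (3 : ℤ) ∣ 2 ^ (i + 1) := by rw [hI6]; norm_num
          have h9 := Int.Prime.dvd_pow' Nat.prime_three h8
          norm_num at h9
    · -- `m ≥ 5`
      obtain ⟨j, rfl⟩ : ∃ j, m = j + 5 := ⟨m - 5, by omega⟩
      have h6 : ((j + 5 : ℕ) : ℤ) + 1 ≤ 6 * P ^ j := by
        have h7 : ∀ j : ℕ, ((j + 5 : ℕ) : ℤ) + 1 ≤ 6 * P ^ j := by
          intro j
          induction j with
          | zero => norm_num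
          | succ n ih =>
            rw [pow_succ]
            push_cast at ih ⊢
            nlinarith
        exact h7 j
      have h8 : P ^ (j + 5 - 1) = P ^ 4 * P ^ j := by
        rw [show j + 5 - 1 = 4 + j from by omega, pow_add]
      rw [h8] at hS_ge
      obtain ⟨Q, hQ⟩ : ∃ Q : ℤ, Q = P ^ j := ⟨_, rfl⟩
      rw [← hQ] at hS_ge h6
      have hQ1 : 1 ≤ Q := by rw [hQ]; exact one_le_pow₀ (by linarith)
      have h9 : 2 * X ≤ (P + 1) * (6 * Q) := hleZ.trans (by nlinarith)
      -- `4 S ≤ (P+1) (P+1) 6 Q + 2 P + 6`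
      have h10 : 4 * S ≤ (P + 1) * ((P + 1) * (6 * Q)) + 2 * P + 6 := by nlinarith
      have h11a : 9 ≤ P ^ 2 := by nlinarith
      have h11 : 9 * P ^ 2 ≤ P ^ 4 := by
        have h11b : P ^ 4 = P ^ 2 * P ^ 2 := by ring
        rw [h11b]
        exact mul_le_mul_of_nonneg_right h11a (by positivity)
      have h12 : 4 * (9 * P ^ 2 * Q) ≤ (P + 1) * ((P + 1) * (6 * Q)) + 2 * P + 6 := by
        have : 9 * P ^ 2 * Q ≤ P ^ 4 * Q := mul_le_mul_of_nonneg_right h11 (by linarith)
        linarith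
      -- `36 P² Q ≤ 6 (P+1)² Q + 2 P + 6`, but `(P+1)² ≤ 2 P²` and `2 P + 6 ≤ P² Q`
      have h13 : (P + 1) * (P + 1) ≤ 2 * P ^ 2 := by nlinarith
      have h14 : (P + 1) * (P + 1) * Q ≤ 2 * P ^ 2 * Q :=
        mul_le_mul_of_nonneg_right h13 (by linarith)
      have h15 : P ^ 2 ≤ P ^ 2 * Q := le_mul_of_one_le_right (by positivity) hQ1
      nlinarith

end Pool.Agent.E8helper56.NP
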